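import Mathlib

/-!
# The unit circle meets the product of two middle-third Cantor sets in infinitely many points

For `k ≥ 1` put `x = X/3^k`, `y = 1 - Z/9^k`; the circle becomes the graph `Z = G_k(X)` with
`G_k(X) = 9^k (1 - √(1 - X²/9^k))`. On `[2/3, 7/9]` the slope of `G_k` is between `1/3` and `1`, and
the graph crosses the square `[2/3,7/9] × [2/9,1/3]`. A curve with slopes between `1/3` and `1`
which crosses a square crosses one of its four corner subsquares of one third of the size, so that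
the graph contains a point of `C × C`.
-/

set_option autoImplicit false

namespace Pool.Agent.Results.MP_54f706_an.CircleCantorInfinite

open Set

theorem third_mem_pre {n : ℕ} {x : ℝ} (h : x ∈ preCantorSet n) : x / 3 ∈ preCantorSet (n + 1) :=
  Or.inl ⟨x, h, rfl⟩

theorem two_third_mem_pre {n : ℕ} {x : ℝ} (h : x ∈ preCantorSet n) :
    (2 + x) / 3 ∈ preCantorSet (n + 1) :=
  Or.inr ⟨x, h, rfl⟩

theorem third_mem {x : ℝ} (h : x ∈ cantorSet) : x / 3 ∈ cantorSet := by
  rw [cantorSet_eq_union_halves]; exact Or.inl ⟨x, h, rfl⟩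

theorem two_third_mem {x : ℝ} (h : x ∈ cantorSet) : (2 + x) / 3 ∈ cantorSet := by
  rw [cantorSet_eq_union_halves]; exact Or.inr ⟨x, h, rfl⟩

theorem one_sub_pre (n : ℕ) : ∀ x : ℝ, x ∈ preCantorSet n → 1 - x ∈ preCantorSet n := by
  induction n with
  | zero =>
    intro x hx
    rw [preCantorSet_zero] at *
    exact ⟨by linarith [hx.2], by linarith [hx.1]⟩
  | succ n ih =>
    intro x hx
    rcases hx with ⟨y, hy, rfl⟩ | ⟨y, hy, rfl⟩
    · refine Or.inr ⟨1 - y, ih y hy, ?_⟩
      simp only; ring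
    · refine Or.inl ⟨1 - y, ih y hy, ?_⟩
      simp only; ring

theorem one_sub_mem {x : ℝ} (h : x ∈ cantorSet) : 1 - x ∈ cantorSet := by
  simp only [cantorSet, Set.mem_iInter] at *
  exact fun n => one_sub_pre n x (h n)

theorem div_pow_mem {x : ℝ} (h : x ∈ cantorSet) (k : ℕ) : x / 3 ^ k ∈ cantorSet := by
  induction k with
  | zero => simpa using h
  | succ k ih =>
    have := third_mem ih
    rwa [div_div, ← pow_succ] at this

/-- A graph with slopes in `[1/3, 1]` crossing a square meets the `n`-th approximation. -/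
theorem corner (g : ℝ → ℝ) (hg : Continuous g) (A B : ℝ)
    (h1 : ∀ X X', A ≤ X → X ≤ X' → X' ≤ B → (X' - X) / 3 ≤ g X' - g X)
    (h2 : ∀ X X', A ≤ X → X ≤ X' → X' ≤ B → g X' - g X ≤ X' - X) (n : ℕ) :
    ∀ a b s : ℝ, 0 < s → A ≤ a → a + s ≤ B → g a ≤ b + s → b ≤ g (a + s) →
      ∃ X ∈ Icc a (a + s), (X - a) / s ∈ preCantorSet n ∧ (g X - b) / s ∈ preCantorSet n := by
  induction n with
  | zero =>
    intro a b s hs hA hB hga hgb
    have hIVT : ∃ X ∈ Icc a (a + s), b ≤ g X ∧ g X ≤ b + s := by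
      by_cases h : b ≤ g a
      · exact ⟨a, ⟨le_refl _, by linarith⟩, h, hga⟩
      · push Not at h
        have := intermediate_value_Icc (a := a) (b := a + s) (by linarith) hg.continuousOn
        obtain ⟨X, hX, hX'⟩ := this ⟨h.le, hgb⟩
        exact ⟨X, hX, by rw [hX'], by rw [hX']; linarith⟩
    obtain ⟨X, hX, hX1, hX2⟩ := hIVT
    refine ⟨X, hX, ?_, ?_⟩
    · rw [preCantorSet_zero]
      exact ⟨div_nonneg (by linarith [hX.1]) hs.le, by rw [div_le_one hs]; linarith [hX.2]⟩
    · rw [preCantorSet_zero]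
      exact ⟨div_nonneg (by linarith) hs.le, by rw [div_le_one hs]; linarith⟩
  | succ n ih =>
    intro a b s hs hA hB hga hgb
    have hpq := h1 a (a + s / 3) hA (by linarith) (by linarith)
    have hqp' := h1 (a + s / 3) (a + 2 * s / 3) (by linarith) (by linarith) (by linarith)
    have hpq' := h1 (a + 2 * s / 3) (a + s) (by linarith) (by linarith) (by linarith)
    have hqp2 := h2 (a + s / 3) (a + 2 * s / 3) (by linarith) (by linarith) (by linarith)
    have e3 : a + 2 * s / 3 + s / 3 = a + s := by ring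
    -- conclusion from a corner
    have use : ∀ a' b' : ℝ, (a' = a ∨ a' = a + 2 * s / 3) → (b' = b ∨ b' = b + 2 * s / 3) →
        g a' ≤ b' + s / 3 → b' ≤ g (a' + s / 3) →
        ∃ X ∈ Icc a (a + s), (X - a) / s ∈ preCantorSet (n + 1) ∧
          (g X - b) / s ∈ preCantorSet (n + 1) := by
      intro a' b' ha' hb' hc1 hc2
      have hA' : A ≤ a' := by rcases ha' with rfl | rfl <;> linarith
      have hB' : a' + s / 3 ≤ B := by rcases ha' with rfl | rfl <;> linarith
      obtain ⟨X, hX, hX1, hX2⟩ := ih a' b' (s / 3) (by positivity) hA' hB' hc1 hc2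
      refine ⟨X, ⟨?_, ?_⟩, ?_, ?_⟩
      · rcases ha' with rfl | rfl <;> linarith [hX.1]
      · rcases ha' with rfl | rfl <;> linarith [hX.2]
      · rcases ha' with rfl | rfl
        · have := third_mem_pre hX1
          convert this using 1
          field_simp
        · have := two_third_mem_pre hX1
          convert this using 1
          field_simp
          ring
      · rcases hb' with rfl | rfl
        · have := third_mem_pre hX2
          convert this using 1
          field_simp
        · have := two_third_mem_pre hX2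
          convert this using 1
          field_simp
          ring
    by_contra hcon
    have n1 := fun h h' => hcon (use a b (Or.inl rfl) (Or.inl rfl) h h')
    have n2 := fun h h' => hcon (use a (b + 2 * s / 3) (Or.inl rfl) (Or.inr rfl) h h')
    have n3 := fun h h' => hcon (use (a + 2 * s / 3) b (Or.inr rfl) (Or.inl rfl) h h')
    have n4 := fun h h' => hcon (use (a + 2 * s / 3) (b + 2 * s / 3) (Or.inr rfl) (Or.inr rfl) h h')
    rw [e3] at n3 n4
    -- (ii) q < b + 2s/3
    have i2 : g (a + s / 3) < b + 2 * s / 3 := by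
      by_contra h; push Not at h; exact n2 (by linarith) h
    -- (iii) p' > b + s/3
    have i3 : b + s / 3 < g (a + 2 * s / 3) := by
      by_contra h; push Not at h; exact n3 h hgb
    have i1 : b + s / 3 < g a := by
      by_contra h; push Not at h; exact n1 h (by linarith)
    exact n4 (by linarith) (by linarith)

theorem meets (g : ℝ → ℝ) (hg : Continuous g) (a b s : ℝ) (hs : 0 < s)
    (h1 : ∀ X X', a ≤ X → X ≤ X' → X' ≤ a + s → (X' - X) / 3 ≤ g X' - g X)
    (h2 : ∀ X X', a ≤ X → X ≤ X' → X' ≤ a + s → g X' - g X ≤ X' - X)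
    (hga : g a ≤ b + s) (hgb : b ≤ g (a + s)) :
    ∃ X ∈ Icc a (a + s), (X - a) / s ∈ cantorSet ∧ (g X - b) / s ∈ cantorSet := by
  let K : ℕ → Set ℝ := fun n => Icc a (a + s) ∩
    ((fun X => (X - a) / s) ⁻¹' preCantorSet n ∩ (fun X => (g X - b) / s) ⁻¹' preCantorSet n)
  have hclosed : ∀ n, IsClosed (K n) := by
    intro n
    refine isClosed_Icc.inter (IsClosed.inter ?_ ?_)
    · exact (isClosed_preCantorSet n).preimage (by fun_prop)
    · exact (isClosed_preCantorSet n).preimage (by fun_prop)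
  have hne := IsCompact.nonempty_iInter_of_sequence_nonempty_isCompact_isClosed K
    (by
      intro n X hX
      exact ⟨hX.1, preCantorSet_antitone (Nat.le_succ n) hX.2.1,
        preCantorSet_antitone (Nat.le_succ n) hX.2.2⟩)
    (by
      intro n
      obtain ⟨X, hX, hX1, hX2⟩ := corner g hg a (a + s) h1 h2 n a b s hs le_rfl le_rfl hga hgb
      exact ⟨X, hX, hX1, hX2⟩)
    (isCompact_Icc.of_isClosed_subset (hclosed 0) inter_subset_left) hclosed
  obtain ⟨X, hX⟩ := hne
  rw [mem_iInter] at hX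
  refine ⟨X, (hX 0).1, ?_, ?_⟩
  · simp only [cantorSet, mem_iInter]; exact fun n => (hX n).2.1
  · simp only [cantorSet, mem_iInter]; exact fun n => (hX n).2.2

/-- One point of the circle in `C × C` for each `k ≥ 1`. -/
theorem exists_point (k : ℕ) (hk : 1 ≤ k) : ∃ X ∈ Icc (2 / 3 : ℝ) (7 / 9), ∃ y : ℝ,
    X / 3 ^ k ∈ cantorSet ∧ y ∈ cantorSet ∧ (X / 3 ^ k) ^ 2 + y ^ 2 = 1 := by
  set c : ℝ := 1 / 9 ^ k with hc
  have h9 : (9 : ℝ) ≤ 9 ^ k := by
    calc (9 : ℝ) = 9 ^ 1 := by norm_num
      _ ≤ 9 ^ k := pow_le_pow_right₀ (by norm_num) hk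
  have hc0 : 0 < c := by rw [hc]; positivity
  have hc1 : c ≤ 1 / 9 := by
    rw [hc]; exact one_div_le_one_div_of_le (by norm_num) h9
  let g : ℝ → ℝ := fun X => (1 - √(1 - c * X ^ 2)) / c
  have hg : Continuous g := by
    simp only [g]; fun_prop
  have hrad : ∀ X : ℝ, 2 / 3 ≤ X → X ≤ 7 / 9 → X ^ 2 ≤ 1 - c * X ^ 2 := by
    intro X h1 h2
    have : X ^ 2 ≤ 49 / 81 := by nlinarith
    nlinarith
  have hsq : ∀ X : ℝ, 2 / 3 ≤ X → X ≤ 7 / 9 → √(1 - c * X ^ 2) ^ 2 = 1 - c * X ^ 2 := by
    intro X h1 h2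
    exact Real.sq_sqrt (by nlinarith [hrad X h1 h2, sq_nonneg X])
  have hlow : ∀ X : ℝ, 2 / 3 ≤ X → X ≤ 7 / 9 → X ≤ √(1 - c * X ^ 2) := by
    intro X h1 h2
    exact Real.le_sqrt_of_sq_le (hrad X h1 h2)
  have hup : ∀ X : ℝ, √(1 - c * X ^ 2) ≤ 1 := by
    intro X
    rw [Real.sqrt_le_one]
    nlinarith [sq_nonneg X]
  have hdiff : ∀ X X' : ℝ, 2 / 3 ≤ X → X ≤ X' → X' ≤ 7 / 9 →
      c * (X' - X) / 3 ≤ √(1 - c * X ^ 2) - √(1 - c * X' ^ 2) ∧
      √(1 - c * X ^ 2) - √(1 - c * X' ^ 2) ≤ c * (X' - X) := by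
    intro X X' h1 h2 h3
    have s1 := hsq X h1 (by linarith)
    have s2 := hsq X' (by linarith) h3
    have l1 := hlow X h1 (by linarith)
    have l2 := hlow X' (by linarith) h3
    have u1 := hup X
    have u2 := hup X'
    set t := √(1 - c * X ^ 2)
    set t' := √(1 - c * X' ^ 2)
    have hprod : (t - t') * (t + t') = c * (X' - X) * (X' + X) := by nlinarith
    have hd0 : 0 ≤ c * (X' - X) := mul_nonneg hc0.le (by linarith)
    have htt : 0 < t + t' := by linarith
    constructor
    · by_contra hcon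
      push Not at hcon
      have : (t - t') * (t + t') < c * (X' - X) * (X' + X) := by
        calc (t - t') * (t + t') < c * (X' - X) / 3 * (t + t') := mul_lt_mul_of_pos_right hcon htt
          _ ≤ c * (X' - X) / 3 * 2 := by
              apply mul_le_mul_of_nonneg_left _ (by positivity)
              linarith
          _ ≤ c * (X' - X) * (X' + X) := by nlinarith
      linarith
    · by_contra hcon
      push Not at hcon
      have : c * (X' - X) * (X' + X) < (t - t') * (t + t') := by
        calc c * (X' - X) * (X' + X) ≤ c * (X' - X) * (t + t') := by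
              apply mul_le_mul_of_nonneg_left _ hd0
              linarith
          _ < (t - t') * (t + t') := mul_lt_mul_of_pos_right hcon htt
      linarith
  have hval : ∀ X : ℝ, 2 / 3 ≤ X → X ≤ 7 / 9 → X ^ 2 / 2 ≤ g X ∧ g X ≤ X ^ 2 := by
    intro X h1 h2
    have s1 := hsq X h1 h2
    have l1 := hlow X h1 h2
    have u1 := hup X
    simp only [g]
    set t := √(1 - c * X ^ 2)
    have ht0 : 0 < t := by linarith
    constructor
    · rw [le_div_iff₀ hc0]
      nlinarith
    · rw [div_le_iff₀ hc0]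
      nlinarith
  obtain ⟨X, hX, hX1, hX2⟩ := meets g hg (2 / 3) (2 / 9) (1 / 9) (by norm_num)
    (by
      intro X X' h1 h2 h3
      have := (hdiff X X' h1 h2 (by linarith)).1
      simp only [g]
      rw [← sub_div, le_div_iff₀ hc0]
      linarith)
    (by
      intro X X' h1 h2 h3
      have := (hdiff X X' h1 h2 (by linarith)).2
      simp only [g]
      rw [← sub_div, div_le_iff₀ hc0]
      linarith)
    (by
      have hv := hval (2 / 3) (by norm_num) (by norm_num)
      -- g (2/3) ≤ 1/3
      have s1 := hsq (2 / 3) (by norm_num) (by norm_num)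
      have u1 := hup (2 / 3)
      have l1 := hlow (2 / 3) (by norm_num) (by norm_num)
      simp only [g]
      rw [div_le_iff₀ hc0]
      set t := √(1 - c * (2 / 3) ^ 2)
      -- 1 - t ≤ c/3 : t ≥ 1 - c/3, t^2 = 1 - 4c/9 ≥ (1-c/3)^2
      by_contra hcon
      push Not at hcon
      have : t < 1 - c / 3 := by linarith
      nlinarith)
    (by
      have hv := (hval (2 / 3 + 1 / 9) (by norm_num) (by norm_num)).1
      refine le_trans ?_ hv
      norm_num)
  have hX79 : X ≤ 7 / 9 := by have := hX.2; linarith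
  refine ⟨X, ⟨hX.1, hX79⟩, √(1 - c * X ^ 2), ?_, ?_, ?_⟩
  · apply div_pow_mem
    have := two_third_mem (third_mem hX1)
    convert this using 1
    ring
  · have hZ : g X ∈ cantorSet := by
      have := third_mem (two_third_mem hX2)
      convert this using 1
      ring
    have h3 := one_sub_mem (div_pow_mem hZ (2 * k))
    have e : (3 : ℝ) ^ (2 * k) = 9 ^ k := by rw [pow_mul]; norm_num
    convert h3 using 1
    rw [e]
    simp only [g, hc]
    field_simp
    ring
  · rw [hsq X hX.1 hX79]
    have e : ((3 : ℝ) ^ k) ^ 2 = 9 ^ k := by rw [← pow_mul, mul_comm, pow_mul]; norm_num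
    rw [div_pow, e, hc]
    ring

theorem result : Set.Infinite {p : ℝ × ℝ | p.1 ^ 2 + p.2 ^ 2 = 1 ∧ p.1 ∈ cantorSet ∧ p.2 ∈ cantorSet} := by
  choose X hX y hXC hyC hcirc using fun k : ℕ => exists_point (k + 1) (by omega)
  refine Set.infinite_of_injective_forall_mem (f := fun k : ℕ => (X k / 3 ^ (k + 1), y k)) ?_ ?_
  · intro i j hij
    have h := congrArg Prod.fst hij
    simp only at h
    have key : ∀ i j : ℕ, i < j → X i / 3 ^ (i + 1) ≠ X j / 3 ^ (j + 1) := by
      intro i j hlt heq
      obtain ⟨d, rfl⟩ := Nat.exists_eq_add_of_lt hlt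
      have e : (3 : ℝ) ^ (i + d + 1 + 1) = 3 ^ (i + 1) * 3 ^ (d + 1) := by
        rw [← pow_add]; congr 1; ring
      rw [e] at heq
      have hp : (0 : ℝ) < 3 ^ (i + 1) := by positivity
      have hp2 : (3 : ℝ) ≤ 3 ^ (d + 1) := by
        calc (3 : ℝ) = 3 ^ 1 := by norm_num
          _ ≤ 3 ^ (d + 1) := pow_le_pow_right₀ (by norm_num) (by omega)
      rw [← div_div, div_right_comm] at heq
      have h1 : X i = X (i + d + 1) / 3 ^ (d + 1) := by
        have := congrArg (fun t => t * 3 ^ (i + 1)) heq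
        simpa [div_mul_cancel₀, hp.ne'] using this
      have h2 := (hX i).1
      have h3 := (hX (i + d + 1)).2
      have h4 : X (i + d + 1) / 3 ^ (d + 1) ≤ (7 / 9) / 3 := by
        apply div_le_div₀ (by norm_num) h3 (by norm_num) hp2
      linarith
    rcases lt_trichotomy i j with hlt | heq | hlt
    · exact absurd h (key i j hlt)
    · exact heq
    · exact absurd h.symm (key j i hlt)
  · intro k
    exact ⟨hcirc k, hXC k, hyC k⟩

end Pool.Agent.Results.MP_54f706_an.CircleCantorInfinite
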